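import Pool.Agent.X277.LP.Uq

/-!
# A Leonard pair of `q`-Racah type that does not come from the equitable presentation of
`U_q(sl₂)`

Let `K` be any field of characteristic zero in which `-1` is not a square (for instance `ℚ` or
`ℝ`).  There is a Leonard pair `A, B` on `K⁴` with `β = 17/4` (so that `β = q² + q⁻²` for
`q = 2`) such that for every `q` with `β = q² + q⁻²` (necessarily not a root of unity) there is no
irreducible `U_q(sl₂)`-module structure on `K⁴` with `A ∈ span {I, X, Y, XY}` and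
`B ∈ span {I, Y, Z, YZ}`.  This disproves the statement of the problem (Q1), which is made over an
arbitrary field.
-/

open Module Pool.Agent.X277.LQ

namespace Pool.Agent.Results.MP_32472a_al.NonSplitQ

/-- A square matrix is irreducible tridiagonal. -/
def IrredTridiag {K : Type} [Field K] {n : ℕ} (M : Matrix (Fin n) (Fin n) K) : Prop :=
  (∀ i j : Fin n, (i : ℕ) + 1 < j ∨ (j : ℕ) + 1 < i → M i j = 0) ∧
  (∀ i j : Fin n, (i : ℕ) + 1 = j → M i j ≠ 0 ∧ M j i ≠ 0)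

/-- The basis `b` of the space `V` of dimension `d + 1` makes `B` irreducible tridiagonal and `A`
diagonal. -/
def Splits {K V : Type} [Field K] [AddCommGroup V] [Module K V] {d : ℕ}
    (A B : Module.End K V) (b : Basis (Fin (d + 1)) K V) : Prop :=
  IrredTridiag (LinearMap.toMatrix b b B) ∧ (LinearMap.toMatrix b b A).IsDiag

/-- `A, B` is a Leonard pair on the space `V` of dimension `d + 1`. -/
def IsLeonardPair {K V : Type} [Field K] [AddCommGroup V] [Module K V] (d : ℕ)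
    (A B : Module.End K V) : Prop :=
  (∃ b : Basis (Fin (d + 1)) K V, Splits B A b) ∧ (∃ b : Basis (Fin (d + 1)) K V, Splits A B b)

/-- For some basis of eigenvectors of `A` in which `B` is irreducible tridiagonal, the eigenvalues
`θ₀, …, θ_d` of `A` satisfy `θ_{i-2} - θ_{i+1} = (β + 1) (θ_{i-1} - θ_i)` for `2 ≤ i ≤ d - 1`. -/
def HasBeta {K V : Type} [Field K] [AddCommGroup V] [Module K V] (d : ℕ) (β : K)
    (A B : Module.End K V) : Prop :=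
  ∃ b : Basis (Fin (d + 1)) K V, Splits A B b ∧ ∀ i₀ i₁ i₂ i₃ : Fin (d + 1),
    (i₁ : ℕ) = i₀ + 1 → (i₂ : ℕ) = i₀ + 2 → (i₃ : ℕ) = i₀ + 3 →
    LinearMap.toMatrix b b A i₀ i₀ - LinearMap.toMatrix b b A i₃ i₃ =
      (β + 1) * (LinearMap.toMatrix b b A i₁ i₁ - LinearMap.toMatrix b b A i₂ i₂)

/-- The defining relations of `U_q(sl₂)` in the equitable presentation; the generators number
`0, 1, 2, 3` are `X, X⁻¹, Y, Z`. -/
inductive UqRel (K : Type) [Field K] (q : K) :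
    FreeAlgebra K (Fin 4) → FreeAlgebra K (Fin 4) → Prop
  | inv_right : UqRel K q (FreeAlgebra.ι K 0 * FreeAlgebra.ι K 1) 1
  | inv_left : UqRel K q (FreeAlgebra.ι K 1 * FreeAlgebra.ι K 0) 1
  | xy : UqRel K q ((q - q⁻¹)⁻¹ • (q • (FreeAlgebra.ι K 0 * FreeAlgebra.ι K 2) -
      q⁻¹ • (FreeAlgebra.ι K 2 * FreeAlgebra.ι K 0))) 1
  | yz : UqRel K q ((q - q⁻¹)⁻¹ • (q • (FreeAlgebra.ι K 2 * FreeAlgebra.ι K 3) -
      q⁻¹ • (FreeAlgebra.ι K 3 * FreeAlgebra.ι K 2))) 1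
  | zx : UqRel K q ((q - q⁻¹)⁻¹ • (q • (FreeAlgebra.ι K 3 * FreeAlgebra.ι K 0) -
      q⁻¹ • (FreeAlgebra.ι K 0 * FreeAlgebra.ι K 3))) 1

/-- The algebra `U_q(sl₂)` in the equitable presentation. -/
abbrev Uq (K : Type) [Field K] (q : K) : Type := RingQuot (UqRel K q)

/-- The generators `X, X⁻¹, Y, Z` of `U_q(sl₂)`. -/
def gen (K : Type) [Field K] (q : K) (i : Fin 4) : Uq K q :=
  RingQuot.mkAlgHom K (UqRel K q) (FreeAlgebra.ι K i)

/-- `A ∈ span {I, x, y, xy}` and `B ∈ span {I, y, z, yz}`. -/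
def InSpans {K V : Type} [Field K] [AddCommGroup V] [Module K V]
    (x y z A B : Module.End K V) : Prop :=
  A ∈ Submodule.span K {1, x, y, x * y} ∧ B ∈ Submodule.span K {1, y, z, y * z}

/-- There is an irreducible `U_q(sl₂)`-module structure `φ` on the nonzero space `V` such that `A`
lies in the span of `I, X, Y, XY` and `B` lies in the span of `I, Y, Z, YZ`. -/
def FromModule {K V : Type} [Field K] [AddCommGroup V] [Module K V] (q : K)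
    (A B : Module.End K V) : Prop :=
  ∃ φ : Uq K q →ₐ[K] Module.End K V,
    (∀ W : Submodule K V, (∀ u : Uq K q, ∀ w ∈ W, φ u w ∈ W) → W = ⊥ ∨ W = ⊤) ∧
      InSpans (φ (gen K q 0)) (φ (gen K q 2)) (φ (gen K q 3)) A B

/-! ### Arithmetic -/

section Arith

variable {K : Type} [Field K]

lemma root_cases {t : K} (h : (t + 21) * (t + 4) * (t - 4) * (t - 21) = 0) :
    ∃ n m : ℤ, ((n = -21 ∧ m = 441) ∨ (n = -4 ∧ m = 16) ∨ (n = 4 ∧ m = 16) ∨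
      (n = 21 ∧ m = 441)) ∧ t = n ∧ t ^ 2 = m := by
  rcases mul_eq_zero.1 h with h | h
  · rcases mul_eq_zero.1 h with h | h
    · rcases mul_eq_zero.1 h with h | h
      · refine ⟨-21, 441, by simp, ?_, ?_⟩
        · rw [eq_neg_of_add_eq_zero_left h]; norm_num
        · rw [eq_neg_of_add_eq_zero_left h]; norm_num
      · refine ⟨-4, 16, by simp, ?_, ?_⟩
        · rw [eq_neg_of_add_eq_zero_left h]; norm_num
        · rw [eq_neg_of_add_eq_zero_left h]; norm_num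
    · refine ⟨4, 16, by simp, ?_, ?_⟩
      · rw [sub_eq_zero.1 h]; norm_num
      · rw [sub_eq_zero.1 h]; norm_num
  · refine ⟨21, 441, by simp, ?_, ?_⟩
    · rw [sub_eq_zero.1 h]; norm_num
    · rw [sub_eq_zero.1 h]; norm_num

lemma orient [CharZero K] {t0 t1 t2 t3 : K}
    (h0 : (t0 + 21) * (t0 + 4) * (t0 - 4) * (t0 - 21) = 0)
    (h1 : (t1 + 21) * (t1 + 4) * (t1 - 4) * (t1 - 21) = 0)
    (h2 : (t2 + 21) * (t2 + 4) * (t2 - 4) * (t2 - 21) = 0)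
    (h3 : (t3 + 21) * (t3 + 4) * (t3 - 4) * (t3 - 21) = 0)
    (hs : t0 + t1 + t2 + t3 = 0) (hq : t0 ^ 2 + t1 ^ 2 + t2 ^ 2 + t3 ^ 2 = 914)
    (hd : 4 * (t0 - t3) = 21 * (t1 - t2)) :
    (t0 = -21 ∧ t1 = -4 ∧ t2 = 4 ∧ t3 = 21) ∨ (t0 = 21 ∧ t1 = 4 ∧ t2 = -4 ∧ t3 = -21) := by
  obtain ⟨n0, m0, c0, e0, f0⟩ := root_cases h0
  obtain ⟨n1, m1, c1, e1, f1⟩ := root_cases h1
  obtain ⟨n2, m2, c2, e2, f2⟩ := root_cases h2
  obtain ⟨n3, m3, c3, e3, f3⟩ := root_cases h3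
  rw [f0, f1, f2, f3] at hq
  rw [e0, e1, e2, e3] at hs hd
  have g1 : n0 + n1 + n2 + n3 = 0 := by exact_mod_cast hs
  have g2 : m0 + m1 + m2 + m3 = 914 := by exact_mod_cast hq
  have g3 : 4 * (n0 - n3) = 21 * (n1 - n2) := by exact_mod_cast hd
  have : (n0 = -21 ∧ n1 = -4 ∧ n2 = 4 ∧ n3 = 21) ∨ (n0 = 21 ∧ n1 = 4 ∧ n2 = -4 ∧ n3 = -21) := by
    omega
  rw [e0, e1, e2, e3]
  rcases this with ⟨rfl, rfl, rfl, rfl⟩ | ⟨rfl, rfl, rfl, rfl⟩
  · left; norm_num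
  · right; norm_num

lemma arith4 [CharZero K] (hsq : ¬ IsSquare (-1 : K))
    (α A1 A2 a3 β B1 B2 b3 t0 t1 t2 t3 s0 s1 s2 s3 : K)
    (ht0 : t0 = α + 8 * A1 + 1 / 8 * A2)
    (ht1 : t1 = α + 2 * A1 + 1 / 2 * A2)
    (ht2 : t2 = α + 1 / 2 * A1 + 2 * A2)
    (ht3 : t3 = α + 1 / 8 * A1 + 8 * A2)
    (hs0 : s0 = β + 1 / 8 * B1 + 8 * B2)
    (hs1 : s1 = β + 1 / 2 * B1 + 2 * B2)
    (hs2 : s2 = β + 2 * B1 + 1 / 2 * B2)
    (hs3 : s3 = β + 8 * B1 + 1 / 8 * B2)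
    (T0 : (t0 + 21) * (t0 + 4) * (t0 - 4) * (t0 - 21) = 0)
    (T1 : (t1 + 21) * (t1 + 4) * (t1 - 4) * (t1 - 21) = 0)
    (T2 : (t2 + 21) * (t2 + 4) * (t2 - 4) * (t2 - 21) = 0)
    (T3 : (t3 + 21) * (t3 + 4) * (t3 - 4) * (t3 - 21) = 0)
    (S0 : (s0 + 21) * (s0 + 4) * (s0 - 4) * (s0 - 21) = 0)
    (S1 : (s1 + 21) * (s1 + 4) * (s1 - 4) * (s1 - 21) = 0)
    (S2 : (s2 + 21) * (s2 + 4) * (s2 - 4) * (s2 - 21) = 0)
    (S3 : (s3 + 21) * (s3 + 4) * (s3 - 4) * (s3 - 21) = 0)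
    (hT : t0 + t1 + t2 + t3 = 0) (hS : s0 + s1 + s2 + s3 = 0)
    (hT2 : t0 ^ 2 + t1 ^ 2 + t2 ^ 2 + t3 ^ 2 = 914) (hS2 : s0 ^ 2 + s1 ^ 2 + s2 ^ 2 + s3 ^ 2 = 914)
    (E1 : t0 * s0 + t1 * s1 + t2 * s2 + t3 * s3 +
      (-(8 * A1 + a3)) * (189 / 64 * (2 * B2 + 1 / 4 * b3)) +
      (-(2 * A1 + a3)) * (225 / 16 * (1 / 2 * B2 + 1 / 4 * b3)) +
      (-(1 / 2 * A1 + a3)) * (189 / 4 * (1 / 8 * B2 + 1 / 4 * b3)) = 0)
    (E2 : t0 ^ 2 * s0 + t1 ^ 2 * s1 + t2 ^ 2 * s2 + t3 ^ 2 * s3 +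
      (-(8 * A1 + a3)) * (189 / 64 * (2 * B2 + 1 / 4 * b3)) * (t0 + t1) +
      (-(2 * A1 + a3)) * (225 / 16 * (1 / 2 * B2 + 1 / 4 * b3)) * (t1 + t2) +
      (-(1 / 2 * A1 + a3)) * (189 / 4 * (1 / 8 * B2 + 1 / 4 * b3)) * (t2 + t3) = 0) : False := by
  have hd : 4 * (t0 - t3) = 21 * (t1 - t2) := by rw [ht0, ht1, ht2, ht3]; ring
  have hd' : 4 * (s0 - s3) = 21 * (s1 - s2) := by rw [hs0, hs1, hs2, hs3]; ring
  have kA : A1 = (4 / 63) * (t0 - t3) + 4 / 45 * (t0 + t3 - t1 - t2) := by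
    rw [ht0, ht1, ht2, ht3]; ring
  have kB : B2 = (4 / 63) * (s0 - s3) + 4 / 45 * (s0 + s3 - s1 - s2) := by
    rw [hs0, hs1, hs2, hs3]; ring
  clear ht0 ht1 ht2 ht3 hs0 hs1 hs2 hs3
  rcases orient T0 T1 T2 T3 hT hT2 hd with ⟨rfl, rfl, rfl, rfl⟩ | ⟨rfl, rfl, rfl, rfl⟩ <;>
    rcases orient S0 S1 S2 S3 hS hS2 hd' with ⟨rfl, rfl, rfl, rfl⟩ | ⟨rfl, rfl, rfl, rfl⟩
  · have k : A1 = -(8 / 3) := by rw [kA]; norm_num
    have k' : B2 = -(8 / 3) := by rw [kB]; norm_num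
    subst k k'
    have D : a3 * b3 = 256 / 9 := by linear_combination (-256 / 70875) * E2
    have L : (1) * a3 + (1) * b3 = 0 := by
      linear_combination (4 / 201) * E1 + (4 / 201) * (4113 / 256) * D
    exact hsq ⟨3 * a3 / 16, by linear_combination (-1 * (9 / 256)) * a3 * L + (1 * (9 / 256)) * D⟩
  · have k : A1 = -(8 / 3) := by rw [kA]; norm_num
    have k' : B2 = 8 / 3 := by rw [kB]; norm_num
    subst k k'
    have D : a3 * b3 = -256 / 9 := by linear_combination (-256 / 70875) * E2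
    have L : (-1) * a3 + (1) * b3 = 0 := by
      linear_combination (4 / 201) * E1 + (4 / 201) * (4113 / 256) * D
    exact hsq ⟨3 * a3 / 16, by linear_combination (1 * (9 / 256)) * a3 * L + (-1 * (9 / 256)) * D⟩
  · have k : A1 = 8 / 3 := by rw [kA]; norm_num
    have k' : B2 = -(8 / 3) := by rw [kB]; norm_num
    subst k k'
    have D : a3 * b3 = -256 / 9 := by linear_combination (256 / 70875) * E2
    have L : (1) * a3 + (-1) * b3 = 0 := by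
      linear_combination (4 / 201) * E1 + (4 / 201) * (4113 / 256) * D
    exact hsq ⟨3 * a3 / 16, by linear_combination (-1 * (9 / 256)) * a3 * L + (-1 * (9 / 256)) * D⟩
  · have k : A1 = 8 / 3 := by rw [kA]; norm_num
    have k' : B2 = 8 / 3 := by rw [kB]; norm_num
    subst k k'
    have D : a3 * b3 = 256 / 9 := by linear_combination (256 / 70875) * E2
    have L : (-1) * a3 + (-1) * b3 = 0 := by
      linear_combination (4 / 201) * E1 + (4 / 201) * (4113 / 256) * D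
    exact hsq ⟨3 * a3 / 16, by linear_combination (1 * (9 / 256)) * a3 * L + (1 * (9 / 256)) * D⟩

lemma arithq [CharZero K] (hsq : ¬ IsSquare (-1 : K))
    (α A1 A2 a3 β B1 B2 b3 t0 t1 t2 t3 s0 s1 s2 s3 : K)
    (ht0 : t0 = α + 1 / 8 * A1 + 8 * A2)
    (ht1 : t1 = α + 1 / 2 * A1 + 2 * A2)
    (ht2 : t2 = α + 2 * A1 + 1 / 2 * A2)
    (ht3 : t3 = α + 8 * A1 + 1 / 8 * A2)
    (hs0 : s0 = β + 8 * B1 + 1 / 8 * B2)
    (hs1 : s1 = β + 2 * B1 + 1 / 2 * B2)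
    (hs2 : s2 = β + 1 / 2 * B1 + 2 * B2)
    (hs3 : s3 = β + 1 / 8 * B1 + 8 * B2)
    (T0 : (t0 + 21) * (t0 + 4) * (t0 - 4) * (t0 - 21) = 0)
    (T1 : (t1 + 21) * (t1 + 4) * (t1 - 4) * (t1 - 21) = 0)
    (T2 : (t2 + 21) * (t2 + 4) * (t2 - 4) * (t2 - 21) = 0)
    (T3 : (t3 + 21) * (t3 + 4) * (t3 - 4) * (t3 - 21) = 0)
    (S0 : (s0 + 21) * (s0 + 4) * (s0 - 4) * (s0 - 21) = 0)
    (S1 : (s1 + 21) * (s1 + 4) * (s1 - 4) * (s1 - 21) = 0)
    (S2 : (s2 + 21) * (s2 + 4) * (s2 - 4) * (s2 - 21) = 0)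
    (S3 : (s3 + 21) * (s3 + 4) * (s3 - 4) * (s3 - 21) = 0)
    (hT : t0 + t1 + t2 + t3 = 0) (hS : s0 + s1 + s2 + s3 = 0)
    (hT2 : t0 ^ 2 + t1 ^ 2 + t2 ^ 2 + t3 ^ 2 = 914) (hS2 : s0 ^ 2 + s1 ^ 2 + s2 ^ 2 + s3 ^ 2 = 914)
    (E1 : t0 * s0 + t1 * s1 + t2 * s2 + t3 * s3 +
      (-(1 / 8 * A1 + a3)) * (189 / 4 * (1 / 2 * B2 + 4 * b3)) +
      (-(1 / 2 * A1 + a3)) * (225 / 16 * (2 * B2 + 4 * b3)) +
      (-(2 * A1 + a3)) * (189 / 64 * (8 * B2 + 4 * b3)) = 0)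
    (E2 : t0 ^ 2 * s0 + t1 ^ 2 * s1 + t2 ^ 2 * s2 + t3 ^ 2 * s3 +
      (-(1 / 8 * A1 + a3)) * (189 / 4 * (1 / 2 * B2 + 4 * b3)) * (t0 + t1) +
      (-(1 / 2 * A1 + a3)) * (225 / 16 * (2 * B2 + 4 * b3)) * (t1 + t2) +
      (-(2 * A1 + a3)) * (189 / 64 * (8 * B2 + 4 * b3)) * (t2 + t3) = 0) : False := by
  have hd : 4 * (t0 - t3) = 21 * (t1 - t2) := by rw [ht0, ht1, ht2, ht3]; ring
  have hd' : 4 * (s0 - s3) = 21 * (s1 - s2) := by rw [hs0, hs1, hs2, hs3]; ring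
  have kA : A1 = -(4 / 63) * (t0 - t3) + 4 / 45 * (t0 + t3 - t1 - t2) := by
    rw [ht0, ht1, ht2, ht3]; ring
  have kB : B2 = -(4 / 63) * (s0 - s3) + 4 / 45 * (s0 + s3 - s1 - s2) := by
    rw [hs0, hs1, hs2, hs3]; ring
  clear ht0 ht1 ht2 ht3 hs0 hs1 hs2 hs3
  rcases orient T0 T1 T2 T3 hT hT2 hd with ⟨rfl, rfl, rfl, rfl⟩ | ⟨rfl, rfl, rfl, rfl⟩ <;>
    rcases orient S0 S1 S2 S3 hS hS2 hd' with ⟨rfl, rfl, rfl, rfl⟩ | ⟨rfl, rfl, rfl, rfl⟩
  · have k : A1 = 8 / 3 := by rw [kA]; norm_num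
    have k' : B2 = 8 / 3 := by rw [kB]; norm_num
    subst k k'
    have D : a3 * b3 = 16 / 9 := by linear_combination (16 / 70875) * E2
    have L : (-1) * a3 + (-1) * b3 = 0 := by
      linear_combination (1 / 201) * E1 + (1 / 201) * (4113 / 16) * D
    exact hsq ⟨3 * a3 / 4, by linear_combination (1 * (9 / 16)) * a3 * L + (1 * (9 / 16)) * D⟩
  · have k : A1 = 8 / 3 := by rw [kA]; norm_num
    have k' : B2 = -(8 / 3) := by rw [kB]; norm_num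
    subst k k'
    have D : a3 * b3 = -16 / 9 := by linear_combination (16 / 70875) * E2
    have L : (1) * a3 + (-1) * b3 = 0 := by
      linear_combination (1 / 201) * E1 + (1 / 201) * (4113 / 16) * D
    exact hsq ⟨3 * a3 / 4, by linear_combination (-1 * (9 / 16)) * a3 * L + (-1 * (9 / 16)) * D⟩
  · have k : A1 = -(8 / 3) := by rw [kA]; norm_num
    have k' : B2 = 8 / 3 := by rw [kB]; norm_num
    subst k k'
    have D : a3 * b3 = -16 / 9 := by linear_combination (-16 / 70875) * E2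
    have L : (-1) * a3 + (1) * b3 = 0 := by
      linear_combination (1 / 201) * E1 + (1 / 201) * (4113 / 16) * D
    exact hsq ⟨3 * a3 / 4, by linear_combination (1 * (9 / 16)) * a3 * L + (-1 * (9 / 16)) * D⟩
  · have k : A1 = -(8 / 3) := by rw [kA]; norm_num
    have k' : B2 = -(8 / 3) := by rw [kB]; norm_num
    subst k k'
    have D : a3 * b3 = 16 / 9 := by linear_combination (-16 / 70875) * E2
    have L : (1) * a3 + (1) * b3 = 0 := by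
      linear_combination (1 / 201) * E1 + (1 / 201) * (4113 / 16) * D
    exact hsq ⟨3 * a3 / 4, by linear_combination (-1 * (9 / 16)) * a3 * L + (1 * (9 / 16)) * D⟩

end Arith

/-! ### The pair -/

section Pair

variable {K : Type} [Field K]

/-- The basis given by an invertible matrix. -/
lemma exists_basis {n : ℕ} (P Q : Matrix (Fin n) (Fin n) K) (h : P * Q = 1) (h' : Q * P = 1) :
    ∃ b : Basis (Fin n) K (Fin n → K), ∀ M : Matrix (Fin n) (Fin n) K,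
      LinearMap.toMatrix b b (Matrix.toLin' M) = Q * M * P := by
  refine ⟨(Pi.basisFun K (Fin n)).map (Matrix.toLin'OfInv h' h), fun M => ?_⟩
  ext i j
  rw [LinearMap.toMatrix_apply]
  simp only [Matrix.toLin'OfInv, Basis.map_apply, Basis.map_repr]
  simp [Matrix.mulVec_mulVec, Matrix.mulVec, Matrix.mul_apply, dotProduct]

/-- The matrix of `A`. -/
def MA (K : Type) [Field K] : Matrix (Fin 4) (Fin 4) K :=
  !![-21, 0, 0, 0; 1, -4, 0, 0; 0, 1, 4, 0; 0, 0, 1, 21]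

/-- The matrix of `B`. -/
def MB (K : Type) [Field K] : Matrix (Fin 4) (Fin 4) K :=
  !![-21, -357, 0, 0; 0, -4, -200, 0; 0, 0, 4, -357; 0, 0, 0, 21]

/-- Eigenvectors of `A`. -/
def PA (K : Type) [Field K] : Matrix (Fin 4) (Fin 4) K :=
  !![17850, 0, 0, 0; -1050, 200, 0, 0; 42, -25, 17, 0; -1, 1, -1, 1]

/-- The inverse of `PA`. -/
def QA (K : Type) [Field K] : Matrix (Fin 4) (Fin 4) K :=
  !![1/17850, 0, 0, 0; 1/3400, 1/200, 0, 0; 1/3400, 1/136, 1/17, 0; 1/17850, 1/425, 1/17, 1]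

/-- Eigenvectors of `B`. -/
def PB (K : Type) [Field K] : Matrix (Fin 4) (Fin 4) K :=
  !![1, -21, 357, -1428; 0, 1, -25, 168; 0, 0, 1, -21; 0, 0, 0, 1]

/-- The inverse of `PB`. -/
def QB (K : Type) [Field K] : Matrix (Fin 4) (Fin 4) K :=
  !![1, 21, 168, 1428; 0, 1, 25, 357; 0, 0, 1, 21; 0, 0, 0, 1]

variable [CharZero K]

lemma PA_QA : PA K * QA K = 1 := by
  ext i j
  fin_cases i <;> fin_cases j <;>
    simp [PA, QA, Matrix.mul_apply, Fin.sum_univ_four] <;> norm_num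

lemma QA_PA : QA K * PA K = 1 := by
  ext i j
  fin_cases i <;> fin_cases j <;>
    simp [PA, QA, Matrix.mul_apply, Fin.sum_univ_four] <;> norm_num

omit [CharZero K] in
lemma PB_QB : PB K * QB K = 1 := by
  ext i j
  fin_cases i <;> fin_cases j <;>
    simp [PB, QB, Matrix.mul_apply, Fin.sum_univ_four] <;> norm_num

omit [CharZero K] in
lemma QB_PB : QB K * PB K = 1 := by
  ext i j
  fin_cases i <;> fin_cases j <;>
    simp [PB, QB, Matrix.mul_apply, Fin.sum_univ_four] <;> norm_num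

lemma A_PA : QA K * MA K * PA K = !![-21, 0, 0, 0; 0, -4, 0, 0; 0, 0, 4, 0; 0, 0, 0, 21] := by
  ext i j
  fin_cases i <;> fin_cases j <;>
    simp [PA, QA, MA, Matrix.mul_apply, Fin.sum_univ_four] <;> norm_num

lemma B_PA : QA K * MB K * PA K = !![0, -4, 0, 0; -21, 0, -17, 0; 0, -17, 0, -21; 0, 0, -4, 0] := by
  ext i j
  fin_cases i <;> fin_cases j <;>
    simp [PA, QA, MB, Matrix.mul_apply, Fin.sum_univ_four] <;> norm_num

omit [CharZero K] in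
lemma B_PB : QB K * MB K * PB K = !![-21, 0, 0, 0; 0, -4, 0, 0; 0, 0, 4, 0; 0, 0, 0, 21] := by
  ext i j
  fin_cases i <;> fin_cases j <;>
    simp [PB, QB, MB, Matrix.mul_apply, Fin.sum_univ_four] <;> norm_num

omit [CharZero K] in
lemma A_PB : QB K * MA K * PB K = !![0, 84, 0, 0; 1, 0, 289, 0; 0, 1, 0, 84; 0, 0, 1, 0] := by
  ext i j
  fin_cases i <;> fin_cases j <;>
    simp [PB, QB, MA, Matrix.mul_apply, Fin.sum_univ_four] <;> norm_num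

omit [CharZero K] in
lemma isDiag_four (a b c d : K) :
    (!![a, 0, 0, 0; 0, b, 0, 0; 0, 0, c, 0; 0, 0, 0, d] : Matrix (Fin 4) (Fin 4) K).IsDiag := by
  intro i j hij
  fin_cases i <;> fin_cases j <;> simp_all

lemma beta_aux {V : Type} [AddCommGroup V] [Module K V] (b : Basis (Fin (3 + 1)) K V)
    (A : Module.End K V)
    (hd : LinearMap.toMatrix b b A = !![-21, 0, 0, 0; 0, -4, 0, 0; 0, 0, 4, 0; 0, 0, 0, 21])
    (i₀ i₁ i₂ i₃ : Fin (3 + 1)) (h1 : (i₁ : ℕ) = i₀ + 1) (h2 : (i₂ : ℕ) = i₀ + 2)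
    (h3 : (i₃ : ℕ) = i₀ + 3) :
    LinearMap.toMatrix b b A i₀ i₀ - LinearMap.toMatrix b b A i₃ i₃ =
      (17 / 4 + 1) * (LinearMap.toMatrix b b A i₁ i₁ - LinearMap.toMatrix b b A i₂ i₂) := by
  have k0 : i₀ = 0 := Fin.ext (by simp; omega)
  have k1 : i₁ = 1 := Fin.ext (by simp; omega)
  have k2 : i₂ = 2 := Fin.ext (by simp; omega)
  have k3 : i₃ = 3 := Fin.ext (by simp; omega)
  rw [hd, k0, k1, k2, k3]
  simp
  norm_num

lemma beta_A : HasBeta 3 (17 / 4 : K) (Matrix.toLin' (MA K)) (Matrix.toLin' (MB K)) := by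
  obtain ⟨b, hb⟩ := exists_basis (PA K) (QA K) PA_QA QA_PA
  refine ⟨b, ⟨?_, ?_⟩, beta_aux b _ (by rw [hb, A_PA])⟩
  · rw [hb, B_PA]
    constructor
    · intro i j
      fin_cases i <;> fin_cases j <;> simp
    · intro i j
      fin_cases i <;> fin_cases j <;> simp
  · rw [hb, A_PA]
    exact isDiag_four _ _ _ _

lemma beta_B : HasBeta 3 (17 / 4 : K) (Matrix.toLin' (MB K)) (Matrix.toLin' (MA K)) := by
  obtain ⟨b, hb⟩ := exists_basis (PB K) (QB K) PB_QB QB_PB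
  refine ⟨b, ⟨?_, ?_⟩, beta_aux b _ (by rw [hb, B_PB])⟩
  · rw [hb, A_PB]
    constructor
    · intro i j
      fin_cases i <;> fin_cases j <;> simp
    · intro i j
      fin_cases i <;> fin_cases j <;> simp
  · rw [hb, B_PB]
    exact isDiag_four _ _ _ _

end Pair

/-! ### No module structure -/

section No

variable {K : Type} [Field K]

lemma mem_span_four {E : Type} [AddCommGroup E] [Module K E] {x a b c d : E}
    (h : x ∈ Submodule.span K ({a, b, c, d} : Set E)) :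
    ∃ r s t u : K, x = r • a + s • b + t • c + u • d := by
  rw [Submodule.mem_span_insert] at h
  obtain ⟨r, y, hy, rfl⟩ := h
  rw [Submodule.mem_span_insert] at hy
  obtain ⟨s, z, hz, rfl⟩ := hy
  rw [Submodule.mem_span_pair] at hz
  obtain ⟨t, u, rfl⟩ := hz
  exact ⟨r, s, t, u, by abel⟩

lemma lower_sub (t0 t1 t2 t3 l1 l2 l3 c : K) :
    !![t0, 0, 0, 0; l1, t1, 0, 0; 0, l2, t2, 0; 0, 0, l3, t3] - c • (1 : Matrix (Fin 4) (Fin 4) K) =
      !![t0 - c, 0, 0, 0; l1, t1 - c, 0, 0; 0, l2, t2 - c, 0; 0, 0, l3, t3 - c] := by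
  ext i j
  fin_cases i <;> fin_cases j <;> simp

lemma upper_sub (t0 t1 t2 t3 l1 l2 l3 c : K) :
    !![t0, l1, 0, 0; 0, t1, l2, 0; 0, 0, t2, l3; 0, 0, 0, t3] - c • (1 : Matrix (Fin 4) (Fin 4) K) =
      !![t0 - c, l1, 0, 0; 0, t1 - c, l2, 0; 0, 0, t2 - c, l3; 0, 0, 0, t3 - c] := by
  ext i j
  fin_cases i <;> fin_cases j <;> simp

lemma lower_roots {t0 t1 t2 t3 l1 l2 l3 : K} {L : Matrix (Fin 4) (Fin 4) K}
    (hL : L = !![t0, 0, 0, 0; l1, t1, 0, 0; 0, l2, t2, 0; 0, 0, l3, t3])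
    (h : (L - (-21 : K) • 1) * (L - (-4 : K) • 1) * (L - (4 : K) • 1) * (L - (21 : K) • 1) = 0) :
    (t0 + 21) * (t0 + 4) * (t0 - 4) * (t0 - 21) = 0 ∧
      (t1 + 21) * (t1 + 4) * (t1 - 4) * (t1 - 21) = 0 ∧
      (t2 + 21) * (t2 + 4) * (t2 - 4) * (t2 - 21) = 0 ∧
      (t3 + 21) * (t3 + 4) * (t3 - 4) * (t3 - 21) = 0 := by
  subst hL
  rw [lower_sub, lower_sub, lower_sub, lower_sub] at h
  refine ⟨?_, ?_, ?_, ?_⟩
  · have := congrArg (fun M => M 0 0) h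
    simpa [Matrix.mul_apply, Fin.sum_univ_four] using this
  · have := congrArg (fun M => M 1 1) h
    simpa [Matrix.mul_apply, Fin.sum_univ_four] using this
  · have := congrArg (fun M => M 2 2) h
    simpa [Matrix.mul_apply, Fin.sum_univ_four] using this
  · have := congrArg (fun M => M 3 3) h
    simpa [Matrix.mul_apply, Fin.sum_univ_four] using this

lemma upper_roots {t0 t1 t2 t3 l1 l2 l3 : K} {L : Matrix (Fin 4) (Fin 4) K}
    (hL : L = !![t0, l1, 0, 0; 0, t1, l2, 0; 0, 0, t2, l3; 0, 0, 0, t3])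
    (h : (L - (-21 : K) • 1) * (L - (-4 : K) • 1) * (L - (4 : K) • 1) * (L - (21 : K) • 1) = 0) :
    (t0 + 21) * (t0 + 4) * (t0 - 4) * (t0 - 21) = 0 ∧
      (t1 + 21) * (t1 + 4) * (t1 - 4) * (t1 - 21) = 0 ∧
      (t2 + 21) * (t2 + 4) * (t2 - 4) * (t2 - 21) = 0 ∧
      (t3 + 21) * (t3 + 4) * (t3 - 4) * (t3 - 21) = 0 := by
  subst hL
  rw [upper_sub, upper_sub, upper_sub, upper_sub] at h
  refine ⟨?_, ?_, ?_, ?_⟩
  · have := congrArg (fun M => M 0 0) h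
    simpa [Matrix.mul_apply, Fin.sum_univ_four] using this
  · have := congrArg (fun M => M 1 1) h
    simpa [Matrix.mul_apply, Fin.sum_univ_four] using this
  · have := congrArg (fun M => M 2 2) h
    simpa [Matrix.mul_apply, Fin.sum_univ_four] using this
  · have := congrArg (fun M => M 3 3) h
    simpa [Matrix.mul_apply, Fin.sum_univ_four] using this

lemma MA_poly : (MA K - (-21 : K) • 1) * (MA K - (-4 : K) • 1) * (MA K - (4 : K) • 1) *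
    (MA K - (21 : K) • 1) = 0 := by
  rw [MA, lower_sub, lower_sub, lower_sub, lower_sub]
  ext i j
  fin_cases i <;> fin_cases j <;> simp [Matrix.mul_apply, Fin.sum_univ_four] <;> norm_num

lemma MB_poly : (MB K - (-21 : K) • 1) * (MB K - (-4 : K) • 1) * (MB K - (4 : K) • 1) *
    (MB K - (21 : K) • 1) = 0 := by
  rw [MB, upper_sub, upper_sub, upper_sub, upper_sub]
  ext i j
  fin_cases i <;> fin_cases j <;> simp [Matrix.mul_apply, Fin.sum_univ_four]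

lemma trace_conj (b : Basis (Fin 4) K (Fin 4 → K)) (M : Matrix (Fin 4) (Fin 4) K) :
    Matrix.trace (LinearMap.toMatrix b b (Matrix.toLin' M)) = Matrix.trace M := by
  rw [← LinearMap.trace_eq_matrix_trace, LinearMap.trace_eq_matrix_trace K (Pi.basisFun K (Fin 4)),
    LinearMap.toMatrix_eq_toMatrix', LinearMap.toMatrix'_toLin']

lemma conj_mul (b : Basis (Fin 4) K (Fin 4 → K)) (M N : Matrix (Fin 4) (Fin 4) K) :
    LinearMap.toMatrix b b (Matrix.toLin' (M * N)) =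
      LinearMap.toMatrix b b (Matrix.toLin' M) * LinearMap.toMatrix b b (Matrix.toLin' N) := by
  rw [← LinearMap.toMatrix_mul, Matrix.toLin'_mul]
  rfl

variable [CharZero K]

lemma no4_A (a0 a1 a2 a3 ε : K) :
    a0 • (1 : Matrix (Fin 4) (Fin 4) K) +
      (a1 * ε) • !![8, 0, 0, 0; -8, 2, 0, 0; 0, -2, 1/2, 0; 0, 0, -1/2, 1/8] +
      (a2 * ε) • !![1/8, 0, 0, 0; 0, 1/2, 0, 0; 0, 0, 2, 0; 0, 0, 0, 8] +
      a3 • (!![8, 0, 0, 0; -8, 2, 0, 0; 0, -2, 1/2, 0; 0, 0, -1/2, 1/8] *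
        !![1/8, 0, 0, 0; 0, 1/2, 0, 0; 0, 0, 2, 0; 0, 0, 0, 8]) =
      !![a0 + a3 + 8 * (a1 * ε) + 1 / 8 * (a2 * ε), 0, 0, 0;
        -(8 * (a1 * ε) + a3), a0 + a3 + 2 * (a1 * ε) + 1 / 2 * (a2 * ε), 0, 0;
        0, -(2 * (a1 * ε) + a3), a0 + a3 + 1 / 2 * (a1 * ε) + 2 * (a2 * ε), 0;
        0, 0, -(1 / 2 * (a1 * ε) + a3), a0 + a3 + 1 / 8 * (a1 * ε) + 8 * (a2 * ε)] := by
  have h : (!![8, 0, 0, 0; -8, 2, 0, 0; 0, -2, 1/2, 0; 0, 0, -1/2, 1/8] * !![1/8, 0, 0, 0; 0, 1/2, 0, 0; 0, 0, 2, 0; 0, 0, 0, 8] : Matrix (Fin 4) (Fin 4) K) =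
      !![1, 0, 0, 0; -1, 1, 0, 0; 0, -1, 1, 0; 0, 0, -1, 1] := by
    ext i j
    fin_cases i <;> fin_cases j <;> simp [Matrix.mul_apply, Fin.sum_univ_four]
  rw [h]
  ext i j
  fin_cases i <;> fin_cases j <;> simp <;> ring

lemma no4_B (b0 b1 b2 b3 ε : K) :
    b0 • (1 : Matrix (Fin 4) (Fin 4) K) +
      (b1 * ε) • !![1/8, 0, 0, 0; 0, 1/2, 0, 0; 0, 0, 2, 0; 0, 0, 0, 8] +
      (b2 * ε) • !![8, 189/32, 0, 0; 0, 2, 225/32, 0; 0, 0, 1/2, 189/32; 0, 0, 0, 1/8] +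
      b3 • (!![1/8, 0, 0, 0; 0, 1/2, 0, 0; 0, 0, 2, 0; 0, 0, 0, 8] *
        !![8, 189/32, 0, 0; 0, 2, 225/32, 0; 0, 0, 1/2, 189/32; 0, 0, 0, 1/8]) =
      !![b0 + b3 + 1 / 8 * (b1 * ε) + 8 * (b2 * ε), 189 / 64 * (2 * (b2 * ε) + 1 / 4 * b3), 0, 0;
        0, b0 + b3 + 1 / 2 * (b1 * ε) + 2 * (b2 * ε), 225 / 16 * (1 / 2 * (b2 * ε) + 1 / 4 * b3), 0;
        0, 0, b0 + b3 + 2 * (b1 * ε) + 1 / 2 * (b2 * ε), 189 / 4 * (1 / 8 * (b2 * ε) + 1 / 4 * b3);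
        0, 0, 0, b0 + b3 + 8 * (b1 * ε) + 1 / 8 * (b2 * ε)] := by
  have h : (!![1/8, 0, 0, 0; 0, 1/2, 0, 0; 0, 0, 2, 0; 0, 0, 0, 8] * !![8, 189/32, 0, 0; 0, 2, 225/32, 0; 0, 0, 1/2, 189/32; 0, 0, 0, 1/8] : Matrix (Fin 4) (Fin 4) K) =
      !![1, 189/256, 0, 0; 0, 1, 225/64, 0; 0, 0, 1, 189/16; 0, 0, 0, 1] := by
    ext i j
    fin_cases i <;> fin_cases j <;> simp [Matrix.mul_apply, Fin.sum_univ_four] <;> norm_num
  rw [h]
  ext i j
  fin_cases i <;> fin_cases j <;> simp <;> ring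

theorem no4 (hsq : ¬ IsSquare (-1 : K)) (X Y Z : Module.End K (Fin 4 → K))
    (b : Basis (Fin 4) K (Fin 4 → K)) (ε : K) (hε : ε * ε = 1)
    (mX : LinearMap.toMatrix b b X = ε • !![8, 0, 0, 0; -8, 2, 0, 0; 0, -2, 1/2, 0; 0, 0, -1/2, 1/8])
    (mY : LinearMap.toMatrix b b Y = ε • !![1/8, 0, 0, 0; 0, 1/2, 0, 0; 0, 0, 2, 0; 0, 0, 0, 8])
    (mZ : LinearMap.toMatrix b b Z = ε • !![8, 189/32, 0, 0; 0, 2, 225/32, 0; 0, 0, 1/2, 189/32; 0, 0, 0, 1/8])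
    (h : InSpans X Y Z (Matrix.toLin' (MA K)) (Matrix.toLin' (MB K))) : False := by
  obtain ⟨a0, a1, a2, a3, hA⟩ := mem_span_four h.1
  obtain ⟨b0, b1, b2, b3, hB⟩ := mem_span_four h.2
  obtain ⟨M, hM⟩ : ∃ M, M = LinearMap.toMatrix b b (Matrix.toLin' (MA K)) := ⟨_, rfl⟩
  obtain ⟨N, hN⟩ : ∃ N, N = LinearMap.toMatrix b b (Matrix.toLin' (MB K)) := ⟨_, rfl⟩
  -- matrices in the basis `b`
  have MA' : M =
      !![a0 + a3 + 8 * (a1 * ε) + 1 / 8 * (a2 * ε), 0, 0, 0;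
        -(8 * (a1 * ε) + a3), a0 + a3 + 2 * (a1 * ε) + 1 / 2 * (a2 * ε), 0, 0;
        0, -(2 * (a1 * ε) + a3), a0 + a3 + 1 / 2 * (a1 * ε) + 2 * (a2 * ε), 0;
        0, 0, -(1 / 2 * (a1 * ε) + a3), a0 + a3 + 1 / 8 * (a1 * ε) + 8 * (a2 * ε)] := by
    rw [hM, hA]
    simp only [map_add, map_smul, LinearMap.toMatrix_mul, LinearMap.toMatrix_one, mX, mY,
      smul_mul_assoc, mul_smul_comm, smul_smul, hε, mul_one]
    exact no4_A a0 a1 a2 a3 ε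
  have MB' : N =
      !![b0 + b3 + 1 / 8 * (b1 * ε) + 8 * (b2 * ε), 189 / 64 * (2 * (b2 * ε) + 1 / 4 * b3), 0, 0;
        0, b0 + b3 + 1 / 2 * (b1 * ε) + 2 * (b2 * ε), 225 / 16 * (1 / 2 * (b2 * ε) + 1 / 4 * b3), 0;
        0, 0, b0 + b3 + 2 * (b1 * ε) + 1 / 2 * (b2 * ε), 189 / 4 * (1 / 8 * (b2 * ε) + 1 / 4 * b3);
        0, 0, 0, b0 + b3 + 8 * (b1 * ε) + 1 / 8 * (b2 * ε)] := by
    rw [hN, hB]
    simp only [map_add, map_smul, LinearMap.toMatrix_mul, LinearMap.toMatrix_one, mY, mZ,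
      smul_mul_assoc, mul_smul_comm, smul_smul, hε, mul_one]
    exact no4_B b0 b1 b2 b3 ε
  have one' : LinearMap.toMatrix b b (Matrix.toLin' (1 : Matrix (Fin 4) (Fin 4) K)) = 1 := by
    rw [Matrix.toLin'_one, LinearMap.toMatrix_id]
  have pM : (M - (-21 : K) • 1) * (M - (-4 : K) • 1) * (M - (4 : K) • 1) * (M - (21 : K) • 1) = 0 := by
    have := congrArg (fun T => LinearMap.toMatrix b b (Matrix.toLin' T)) (MA_poly (K := K))
    simp only [conj_mul, map_sub, map_smul, one', map_zero, ← hM] at this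
    exact this
  have pN : (N - (-21 : K) • 1) * (N - (-4 : K) • 1) * (N - (4 : K) • 1) * (N - (21 : K) • 1) = 0 := by
    have := congrArg (fun T => LinearMap.toMatrix b b (Matrix.toLin' T)) (MB_poly (K := K))
    simp only [conj_mul, map_sub, map_smul, one', map_zero, ← hN] at this
    exact this
  have rM := lower_roots MA' pM
  have rN := upper_roots MB' pN
  have e1 : Matrix.trace M = 0 := by
    rw [hM, trace_conj]
    simp [MA, Matrix.trace, Fin.sum_univ_four]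
  have e2 : Matrix.trace N = 0 := by
    rw [hN, trace_conj]
    simp [MB, Matrix.trace, Fin.sum_univ_four]
  have e1' : Matrix.trace (M * M) = 914 := by
    rw [hM, ← conj_mul, trace_conj]
    simp [MA, Matrix.trace, Fin.sum_univ_four, Matrix.mul_apply]; norm_num
  have e2' : Matrix.trace (N * N) = 914 := by
    rw [hN, ← conj_mul, trace_conj]
    simp [MB, Matrix.trace, Fin.sum_univ_four, Matrix.mul_apply]; norm_num
  have e3 : Matrix.trace (M * N) = 0 := by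
    rw [hM, hN, ← conj_mul, trace_conj]
    simp [MA, MB, Matrix.trace, Fin.sum_univ_four, Matrix.mul_apply]; norm_num
  have e4 : Matrix.trace (M * M * N) = 0 := by
    rw [hM, hN, ← conj_mul, ← conj_mul, trace_conj]
    simp [MA, MB, Matrix.trace, Fin.sum_univ_four, Matrix.mul_apply]; norm_num
  rw [MA'] at e1 e1' e3 e4
  rw [MB'] at e2 e2' e3 e4
  simp only [Matrix.trace, Matrix.diag, Matrix.mul_apply, Fin.sum_univ_four] at e1 e1' e2 e2' e3 e4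
  simp at e1 e1' e2 e2' e3 e4
  exact arith4 hsq (a0 + a3) (a1 * ε) (a2 * ε) a3 (b0 + b3) (b1 * ε) (b2 * ε) b3
    _ _ _ _ _ _ _ _ rfl rfl rfl rfl rfl rfl rfl rfl
    rM.1 rM.2.1 rM.2.2.1 rM.2.2.2 rN.1 rN.2.1 rN.2.2.1 rN.2.2.2 (by linear_combination e1)
    (by linear_combination e2) (by linear_combination e1') (by linear_combination e2')
    (by linear_combination e3) (by linear_combination e4)

lemma noq_A (a0 a1 a2 a3 ε : K) :
    a0 • (1 : Matrix (Fin 4) (Fin 4) K) +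
      (a1 * ε) • !![1/8, 0, 0, 0; -1/8, 1/2, 0, 0; 0, -1/2, 2, 0; 0, 0, -2, 8] +
      (a2 * ε) • !![8, 0, 0, 0; 0, 2, 0, 0; 0, 0, 1/2, 0; 0, 0, 0, 1/8] +
      a3 • (!![1/8, 0, 0, 0; -1/8, 1/2, 0, 0; 0, -1/2, 2, 0; 0, 0, -2, 8] *
        !![8, 0, 0, 0; 0, 2, 0, 0; 0, 0, 1/2, 0; 0, 0, 0, 1/8]) =
      !![a0 + a3 + 1 / 8 * (a1 * ε) + 8 * (a2 * ε), 0, 0, 0;
        -(1 / 8 * (a1 * ε) + a3), a0 + a3 + 1 / 2 * (a1 * ε) + 2 * (a2 * ε), 0, 0;
        0, -(1 / 2 * (a1 * ε) + a3), a0 + a3 + 2 * (a1 * ε) + 1 / 2 * (a2 * ε), 0;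
        0, 0, -(2 * (a1 * ε) + a3), a0 + a3 + 8 * (a1 * ε) + 1 / 8 * (a2 * ε)] := by
  have h : (!![1/8, 0, 0, 0; -1/8, 1/2, 0, 0; 0, -1/2, 2, 0; 0, 0, -2, 8] * !![8, 0, 0, 0; 0, 2, 0, 0; 0, 0, 1/2, 0; 0, 0, 0, 1/8] : Matrix (Fin 4) (Fin 4) K) =
      !![1, 0, 0, 0; -1, 1, 0, 0; 0, -1, 1, 0; 0, 0, -1, 1] := by
    ext i j
    fin_cases i <;> fin_cases j <;> simp [Matrix.mul_apply, Fin.sum_univ_four]
  rw [h]
  ext i j
  fin_cases i <;> fin_cases j <;> simp <;> ring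

lemma noq_B (b0 b1 b2 b3 ε : K) :
    b0 • (1 : Matrix (Fin 4) (Fin 4) K) +
      (b1 * ε) • !![8, 0, 0, 0; 0, 2, 0, 0; 0, 0, 1/2, 0; 0, 0, 0, 1/8] +
      (b2 * ε) • !![1/8, 189/8, 0, 0; 0, 1/2, 225/8, 0; 0, 0, 2, 189/8; 0, 0, 0, 8] +
      b3 • (!![8, 0, 0, 0; 0, 2, 0, 0; 0, 0, 1/2, 0; 0, 0, 0, 1/8] *
        !![1/8, 189/8, 0, 0; 0, 1/2, 225/8, 0; 0, 0, 2, 189/8; 0, 0, 0, 8]) =
      !![b0 + b3 + 8 * (b1 * ε) + 1 / 8 * (b2 * ε), 189 / 4 * (1 / 2 * (b2 * ε) + 4 * b3), 0, 0;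
        0, b0 + b3 + 2 * (b1 * ε) + 1 / 2 * (b2 * ε), 225 / 16 * (2 * (b2 * ε) + 4 * b3), 0;
        0, 0, b0 + b3 + 1 / 2 * (b1 * ε) + 2 * (b2 * ε), 189 / 64 * (8 * (b2 * ε) + 4 * b3);
        0, 0, 0, b0 + b3 + 1 / 8 * (b1 * ε) + 8 * (b2 * ε)] := by
  have h : (!![8, 0, 0, 0; 0, 2, 0, 0; 0, 0, 1/2, 0; 0, 0, 0, 1/8] * !![1/8, 189/8, 0, 0; 0, 1/2, 225/8, 0; 0, 0, 2, 189/8; 0, 0, 0, 8] : Matrix (Fin 4) (Fin 4) K) =
      !![1, 189, 0, 0; 0, 1, 225/4, 0; 0, 0, 1, 189/16; 0, 0, 0, 1] := by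
    ext i j
    fin_cases i <;> fin_cases j <;> simp [Matrix.mul_apply, Fin.sum_univ_four] <;> norm_num
  rw [h]
  ext i j
  fin_cases i <;> fin_cases j <;> simp <;> ring

theorem noq (hsq : ¬ IsSquare (-1 : K)) (X Y Z : Module.End K (Fin 4 → K))
    (b : Basis (Fin 4) K (Fin 4 → K)) (ε : K) (hε : ε * ε = 1)
    (mX : LinearMap.toMatrix b b X = ε • !![1/8, 0, 0, 0; -1/8, 1/2, 0, 0; 0, -1/2, 2, 0; 0, 0, -2, 8])
    (mY : LinearMap.toMatrix b b Y = ε • !![8, 0, 0, 0; 0, 2, 0, 0; 0, 0, 1/2, 0; 0, 0, 0, 1/8])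
    (mZ : LinearMap.toMatrix b b Z = ε • !![1/8, 189/8, 0, 0; 0, 1/2, 225/8, 0; 0, 0, 2, 189/8; 0, 0, 0, 8])
    (h : InSpans X Y Z (Matrix.toLin' (MA K)) (Matrix.toLin' (MB K))) : False := by
  obtain ⟨a0, a1, a2, a3, hA⟩ := mem_span_four h.1
  obtain ⟨b0, b1, b2, b3, hB⟩ := mem_span_four h.2
  obtain ⟨M, hM⟩ : ∃ M, M = LinearMap.toMatrix b b (Matrix.toLin' (MA K)) := ⟨_, rfl⟩
  obtain ⟨N, hN⟩ : ∃ N, N = LinearMap.toMatrix b b (Matrix.toLin' (MB K)) := ⟨_, rfl⟩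
  -- matrices in the basis `b`
  have MA' : M =
      !![a0 + a3 + 1 / 8 * (a1 * ε) + 8 * (a2 * ε), 0, 0, 0;
        -(1 / 8 * (a1 * ε) + a3), a0 + a3 + 1 / 2 * (a1 * ε) + 2 * (a2 * ε), 0, 0;
        0, -(1 / 2 * (a1 * ε) + a3), a0 + a3 + 2 * (a1 * ε) + 1 / 2 * (a2 * ε), 0;
        0, 0, -(2 * (a1 * ε) + a3), a0 + a3 + 8 * (a1 * ε) + 1 / 8 * (a2 * ε)] := by
    rw [hM, hA]
    simp only [map_add, map_smul, LinearMap.toMatrix_mul, LinearMap.toMatrix_one, mX, mY,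
      smul_mul_assoc, mul_smul_comm, smul_smul, hε, mul_one]
    exact noq_A a0 a1 a2 a3 ε
  have MB' : N =
      !![b0 + b3 + 8 * (b1 * ε) + 1 / 8 * (b2 * ε), 189 / 4 * (1 / 2 * (b2 * ε) + 4 * b3), 0, 0;
        0, b0 + b3 + 2 * (b1 * ε) + 1 / 2 * (b2 * ε), 225 / 16 * (2 * (b2 * ε) + 4 * b3), 0;
        0, 0, b0 + b3 + 1 / 2 * (b1 * ε) + 2 * (b2 * ε), 189 / 64 * (8 * (b2 * ε) + 4 * b3);
        0, 0, 0, b0 + b3 + 1 / 8 * (b1 * ε) + 8 * (b2 * ε)] := by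
    rw [hN, hB]
    simp only [map_add, map_smul, LinearMap.toMatrix_mul, LinearMap.toMatrix_one, mY, mZ,
      smul_mul_assoc, mul_smul_comm, smul_smul, hε, mul_one]
    exact noq_B b0 b1 b2 b3 ε
  have one' : LinearMap.toMatrix b b (Matrix.toLin' (1 : Matrix (Fin 4) (Fin 4) K)) = 1 := by
    rw [Matrix.toLin'_one, LinearMap.toMatrix_id]
  have pM : (M - (-21 : K) • 1) * (M - (-4 : K) • 1) * (M - (4 : K) • 1) * (M - (21 : K) • 1) = 0 := by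
    have := congrArg (fun T => LinearMap.toMatrix b b (Matrix.toLin' T)) (MA_poly (K := K))
    simp only [conj_mul, map_sub, map_smul, one', map_zero, ← hM] at this
    exact this
  have pN : (N - (-21 : K) • 1) * (N - (-4 : K) • 1) * (N - (4 : K) • 1) * (N - (21 : K) • 1) = 0 := by
    have := congrArg (fun T => LinearMap.toMatrix b b (Matrix.toLin' T)) (MB_poly (K := K))
    simp only [conj_mul, map_sub, map_smul, one', map_zero, ← hN] at this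
    exact this
  have rM := lower_roots MA' pM
  have rN := upper_roots MB' pN
  have e1 : Matrix.trace M = 0 := by
    rw [hM, trace_conj]
    simp [MA, Matrix.trace, Fin.sum_univ_four]
  have e2 : Matrix.trace N = 0 := by
    rw [hN, trace_conj]
    simp [MB, Matrix.trace, Fin.sum_univ_four]
  have e1' : Matrix.trace (M * M) = 914 := by
    rw [hM, ← conj_mul, trace_conj]
    simp [MA, Matrix.trace, Fin.sum_univ_four, Matrix.mul_apply]; norm_num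
  have e2' : Matrix.trace (N * N) = 914 := by
    rw [hN, ← conj_mul, trace_conj]
    simp [MB, Matrix.trace, Fin.sum_univ_four, Matrix.mul_apply]; norm_num
  have e3 : Matrix.trace (M * N) = 0 := by
    rw [hM, hN, ← conj_mul, trace_conj]
    simp [MA, MB, Matrix.trace, Fin.sum_univ_four, Matrix.mul_apply]; norm_num
  have e4 : Matrix.trace (M * M * N) = 0 := by
    rw [hM, hN, ← conj_mul, ← conj_mul, trace_conj]
    simp [MA, MB, Matrix.trace, Fin.sum_univ_four, Matrix.mul_apply]; norm_num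
  rw [MA'] at e1 e1' e3 e4
  rw [MB'] at e2 e2' e3 e4
  simp only [Matrix.trace, Matrix.diag, Matrix.mul_apply, Fin.sum_univ_four] at e1 e1' e2 e2' e3 e4
  simp at e1 e1' e2 e2' e3 e4
  exact arithq hsq (a0 + a3) (a1 * ε) (a2 * ε) a3 (b0 + b3) (b1 * ε) (b2 * ε) b3
    _ _ _ _ _ _ _ _ rfl rfl rfl rfl rfl rfl rfl rfl
    rM.1 rM.2.1 rM.2.2.1 rM.2.2.2 rN.1 rN.2.1 rN.2.2.1 rN.2.2.2 (by linear_combination e1)
    (by linear_combination e2) (by linear_combination e1') (by linear_combination e2')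
    (by linear_combination e3) (by linear_combination e4)

theorem no4' (hsq : ¬ IsSquare (-1 : K)) (X Y Z : Module.End K (Fin 4 → K))
    (b : Basis (Fin 4) K (Fin 4 → K)) (μ : K) (hμ0 : μ ≠ 0) (hm : 4 ^ 3 * μ ^ 2 = 1)
    (hY : Y (b 0) = μ • b 0 ∧ Y (b 1) = (μ * 4) • b 1 ∧ Y (b 2) = (μ * 4 ^ 2) • b 2 ∧
        Y (b 3) = (μ * 4 ^ 3) • b 3)
    (hX : X (b 0) = μ⁻¹ • (b 0 - b 1) ∧ X (b 1) = (μ * 4)⁻¹ • (b 1 - b 2) ∧
        X (b 2) = (μ * 4 ^ 2)⁻¹ • (b 2 - b 3) ∧ X (b 3) = (μ * 4 ^ 3)⁻¹ • b 3)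
    (hZ : Z (b 0) = μ⁻¹ • b 0 ∧
        Z (b 1) = (μ * 4)⁻¹ • (b 1 + ((4 - 1) * (1 - μ ^ 2)) • b 0) ∧
        Z (b 2) = (μ * 4 ^ 2)⁻¹ • (b 2 + ((4 ^ 2 - 1) * (1 - 4 * μ ^ 2)) • b 1) ∧
        Z (b 3) = (μ * 4 ^ 3)⁻¹ • (b 3 + ((4 ^ 3 - 1) * (1 - 4 ^ 2 * μ ^ 2)) • b 2))
    (h : InSpans X Y Z (Matrix.toLin' (MA K)) (Matrix.toLin' (MB K))) : False := by
  have m2 : μ ^ 2 = 1 / 64 := by linear_combination (1 / 64) * hm
  have i0 : μ⁻¹ = 8 * (8 * μ) := by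
    refine inv_eq_of_mul_eq_one_right ?_
    linear_combination 64 * m2
  have y0 : μ = 1 / 8 * (8 * μ) := by ring
  have i1 : (μ * 4)⁻¹ = 2 * (8 * μ) := by
    refine inv_eq_of_mul_eq_one_right ?_
    linear_combination 64 * m2
  have y1 : (μ * 4) = 1 / 2 * (8 * μ) := by ring
  have i2 : (μ * 4 ^ 2)⁻¹ = 1 / 2 * (8 * μ) := by
    refine inv_eq_of_mul_eq_one_right ?_
    linear_combination 64 * m2
  have y2 : (μ * 4 ^ 2) = 2 * (8 * μ) := by ring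
  have i3 : (μ * 4 ^ 3)⁻¹ = 1 / 8 * (8 * μ) := by
    refine inv_eq_of_mul_eq_one_right ?_
    linear_combination 64 * m2
  have y3 : (μ * 4 ^ 3) = 8 * (8 * μ) := by ring
  obtain ⟨Y0, Y1, Y2, Y3⟩ := hY
  obtain ⟨X0, X1, X2, X3⟩ := hX
  obtain ⟨Z0, Z1, Z2, Z3⟩ := hZ
  rw [m2] at Z1 Z2 Z3
  rw [i0] at X0 Z0
  rw [i1] at X1 Z1
  rw [i2] at X2 Z2
  rw [i3] at X3 Z3
  rw [y1] at Y1
  rw [y2] at Y2
  rw [y3] at Y3
  have Y0' : Y (b 0) = (1 / 8 * (8 * μ)) • b 0 := by rw [← y0]; exact Y0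
  have hε : (8 * μ) * (8 * μ) = 1 := by linear_combination 64 * m2
  generalize 8 * μ = ε at *
  refine no4 hsq X Y Z b ε hε ?_ ?_ ?_ h
  · ext i j
    rw [LinearMap.toMatrix_apply]
    fin_cases j <;> fin_cases i <;>
      simp [X0, X1, X2, X3] <;> ring
  · ext i j
    rw [LinearMap.toMatrix_apply]
    fin_cases j <;> fin_cases i <;>
      simp [Y0', Y1, Y2, Y3] <;> ring
  · ext i j
    rw [LinearMap.toMatrix_apply]
    fin_cases j <;> fin_cases i <;>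
      simp [Z0, Z1, Z2, Z3] <;> ring

theorem noq' (hsq : ¬ IsSquare (-1 : K)) (X Y Z : Module.End K (Fin 4 → K))
    (b : Basis (Fin 4) K (Fin 4 → K)) (μ : K) (hμ0 : μ ≠ 0) (hm : (1 / 4) ^ 3 * μ ^ 2 = 1)
    (hY : Y (b 0) = μ • b 0 ∧ Y (b 1) = (μ * (1 / 4)) • b 1 ∧ Y (b 2) = (μ * (1 / 4) ^ 2) • b 2 ∧
        Y (b 3) = (μ * (1 / 4) ^ 3) • b 3)
    (hX : X (b 0) = μ⁻¹ • (b 0 - b 1) ∧ X (b 1) = (μ * (1 / 4))⁻¹ • (b 1 - b 2) ∧
        X (b 2) = (μ * (1 / 4) ^ 2)⁻¹ • (b 2 - b 3) ∧ X (b 3) = (μ * (1 / 4) ^ 3)⁻¹ • b 3)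
    (hZ : Z (b 0) = μ⁻¹ • b 0 ∧
        Z (b 1) = (μ * (1 / 4))⁻¹ • (b 1 + (((1 / 4) - 1) * (1 - μ ^ 2)) • b 0) ∧
        Z (b 2) = (μ * (1 / 4) ^ 2)⁻¹ • (b 2 + (((1 / 4) ^ 2 - 1) * (1 - (1 / 4) * μ ^ 2)) • b 1) ∧
        Z (b 3) = (μ * (1 / 4) ^ 3)⁻¹ • (b 3 + (((1 / 4) ^ 3 - 1) * (1 - (1 / 4) ^ 2 * μ ^ 2)) • b 2))
    (h : InSpans X Y Z (Matrix.toLin' (MA K)) (Matrix.toLin' (MB K))) : False := by
  have m2 : μ ^ 2 = 64 := by linear_combination (64) * hm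
  have i0 : μ⁻¹ = 1 / 8 * (1 / 8 * μ) := by
    refine inv_eq_of_mul_eq_one_right ?_
    linear_combination (1 / 64) * m2
  have y0 : μ = 8 * (1 / 8 * μ) := by ring
  have i1 : (μ * (1 / 4))⁻¹ = 1 / 2 * (1 / 8 * μ) := by
    refine inv_eq_of_mul_eq_one_right ?_
    linear_combination (1 / 64) * m2
  have y1 : (μ * (1 / 4)) = 2 * (1 / 8 * μ) := by ring
  have i2 : (μ * (1 / 4) ^ 2)⁻¹ = 2 * (1 / 8 * μ) := by
    refine inv_eq_of_mul_eq_one_right ?_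
    linear_combination (1 / 64) * m2
  have y2 : (μ * (1 / 4) ^ 2) = 1 / 2 * (1 / 8 * μ) := by ring
  have i3 : (μ * (1 / 4) ^ 3)⁻¹ = 8 * (1 / 8 * μ) := by
    refine inv_eq_of_mul_eq_one_right ?_
    linear_combination (1 / 64) * m2
  have y3 : (μ * (1 / 4) ^ 3) = 1 / 8 * (1 / 8 * μ) := by ring
  obtain ⟨Y0, Y1, Y2, Y3⟩ := hY
  obtain ⟨X0, X1, X2, X3⟩ := hX
  obtain ⟨Z0, Z1, Z2, Z3⟩ := hZ
  rw [m2] at Z1 Z2 Z3
  rw [i0] at X0 Z0
  rw [i1] at X1 Z1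
  rw [i2] at X2 Z2
  rw [i3] at X3 Z3
  rw [y1] at Y1
  rw [y2] at Y2
  rw [y3] at Y3
  have Y0' : Y (b 0) = (8 * (1 / 8 * μ)) • b 0 := by rw [← y0]; exact Y0
  have hε : (1 / 8 * μ) * (1 / 8 * μ) = 1 := by linear_combination (1 / 64) * m2
  generalize 1 / 8 * μ = ε at *
  refine noq hsq X Y Z b ε hε ?_ ?_ ?_ h
  · ext i j
    rw [LinearMap.toMatrix_apply]
    fin_cases j <;> fin_cases i <;>
      simp [X0, X1, X2, X3] <;> ring
  · ext i j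
    rw [LinearMap.toMatrix_apply]
    fin_cases j <;> fin_cases i <;>
      simp [Y0', Y1, Y2, Y3] <;> ring
  · ext i j
    rw [LinearMap.toMatrix_apply]
    fin_cases j <;> fin_cases i <;>
      simp [Z0, Z1, Z2, Z3] <;> ring

end No

/-- The relations satisfied by the generators in a module. -/
lemma rels {K V : Type} [Field K] [AddCommGroup V] [Module K V] (q : K) (hq0 : q ≠ 0)
    (hq1 : q ^ 2 ≠ 1) (φ : Uq K q →ₐ[K] Module.End K V) :
    (φ (gen K q 0) * φ (gen K q 1) = 1 ∧ φ (gen K q 1) * φ (gen K q 0) = 1) ∧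
    q ^ 2 • (φ (gen K q 0) * φ (gen K q 2)) - φ (gen K q 2) * φ (gen K q 0) = (q ^ 2 - 1) • 1 ∧
    q ^ 2 • (φ (gen K q 2) * φ (gen K q 3)) - φ (gen K q 3) * φ (gen K q 2) = (q ^ 2 - 1) • 1 ∧
    q ^ 2 • (φ (gen K q 3) * φ (gen K q 0)) - φ (gen K q 0) * φ (gen K q 3) = (q ^ 2 - 1) • 1 := by
  have hne : q - q⁻¹ ≠ 0 := by
    intro h
    apply hq1
    have h1 := congrArg (fun x => q * x) (sub_eq_zero.1 h)
    simp only [mul_inv_cancel₀ hq0] at h1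
    rw [sq, h1]
  have key : ∀ S T : Module.End K V, (q - q⁻¹)⁻¹ • (q • (S * T) - q⁻¹ • (T * S)) = 1 →
      q ^ 2 • (S * T) - T * S = (q ^ 2 - 1) • 1 := by
    intro S T h
    have h1 : q • (S * T) - q⁻¹ • (T * S) = (q - q⁻¹) • 1 := by
      rw [← h, smul_smul, mul_inv_cancel₀ hne, one_smul]
    have h2 := congrArg (fun U => q • U) h1
    simp only [smul_sub, smul_smul, mul_inv_cancel₀ hq0, one_smul] at h2
    rw [sq, h2]
    congr 1
    rw [mul_sub, mul_inv_cancel₀ hq0]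
  have h1 := congrArg φ (RingQuot.mkAlgHom_rel K (UqRel.inv_right (K := K) (q := q)))
  have h2 := congrArg φ (RingQuot.mkAlgHom_rel K (UqRel.inv_left (K := K) (q := q)))
  have h3 := congrArg φ (RingQuot.mkAlgHom_rel K (UqRel.xy (K := K) (q := q)))
  have h4 := congrArg φ (RingQuot.mkAlgHom_rel K (UqRel.yz (K := K) (q := q)))
  have h5 := congrArg φ (RingQuot.mkAlgHom_rel K (UqRel.zx (K := K) (q := q)))
  simp only [map_mul, map_one, map_smul, map_sub] at h1 h2 h3 h4 h5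
  exact ⟨⟨h1, h2⟩, key _ _ h3, key _ _ h4, key _ _ h5⟩

/-- A subspace stable under `X, Y, Z` is a submodule. -/
lemma stable {K V : Type} [Field K] [AddCommGroup V] [Module K V] [FiniteDimensional K V]
    (q : K) (φ : Uq K q →ₐ[K] Module.End K V)
    (h01 : φ (gen K q 0) * φ (gen K q 1) = 1) (h10 : φ (gen K q 1) * φ (gen K q 0) = 1)
    (W : Submodule K V)
    (h0 : ∀ w ∈ W, φ (gen K q 0) w ∈ W) (h2 : ∀ w ∈ W, φ (gen K q 2) w ∈ W)
    (h3 : ∀ w ∈ W, φ (gen K q 3) w ∈ W) (u : Uq K q) : ∀ w ∈ W, φ u w ∈ W := by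
  have h1 : ∀ w ∈ W, φ (gen K q 1) w ∈ W := by
    intro w hw
    have hinj : Function.Injective ((φ (gen K q 0)).restrict h0) := by
      intro a b hab
      apply Subtype.ext
      have h4 : φ (gen K q 0) a = φ (gen K q 0) b := congrArg Subtype.val hab
      have h5 := congrArg (φ (gen K q 1)) h4
      rw [← Module.End.mul_apply, ← Module.End.mul_apply, h10] at h5
      exact h5
    obtain ⟨w', hw'⟩ := LinearMap.injective_iff_surjective.1 hinj ⟨w, hw⟩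
    have h4 : φ (gen K q 0) w' = w := congrArg Subtype.val hw'
    rw [← h4, ← Module.End.mul_apply, h10]
    exact w'.2
  obtain ⟨f, rfl⟩ := RingQuot.mkAlgHom_surjective K (UqRel K q) u
  induction f using FreeAlgebra.induction with
  | grade0 r =>
    intro w hw
    rw [AlgHom.commutes, AlgHom.commutes, Module.algebraMap_end_apply]
    exact W.smul_mem r hw
  | grade1 i =>
    intro w hw
    fin_cases i
    · exact h0 w hw
    · exact h1 w hw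
    · exact h2 w hw
    · exact h3 w hw
  | mul a b ha hb =>
    intro w hw
    rw [map_mul, map_mul, Module.End.mul_apply]
    exact ha _ (hb w hw)
  | add a b ha hb =>
    intro w hw
    rw [map_add, map_add, LinearMap.add_apply]
    exact W.add_mem (ha w hw) (hb w hw)

/-- **Main theorem.**  `-1` is not a square in `ℚ` and `ℝ`; and if `K` is a field of
characteristic zero in which `-1` is not a square, then there is a Leonard pair `A, B` on `K⁴`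
with `β = 17/4`, such that every `q` with `β = q² + q⁻²` (for example `q = 2`) is not a root of
unity and there is no irreducible `U_q(sl₂)`-module structure on `K⁴` with
`A ∈ span {I, X, Y, XY}` and `B ∈ span {I, Y, Z, YZ}`. -/
theorem result : (¬ IsSquare (-1 : ℚ) ∧ ¬ IsSquare (-1 : ℝ)) ∧
    ∀ (K : Type) [Field K] [CharZero K], ¬ IsSquare (-1 : K) →
      ∃ A B : Module.End K (Fin 4 → K), IsLeonardPair 3 A B ∧
        HasBeta 3 (17 / 4) A B ∧ HasBeta 3 (17 / 4) B A ∧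
        (17 / 4 : K) = 2 ^ 2 + (2 ^ 2)⁻¹ ∧
        ∀ q : K, q ≠ 0 → 17 / 4 = q ^ 2 + (q ^ 2)⁻¹ →
          (∀ n : ℕ, n ≠ 0 → q ^ n ≠ 1) ∧ ¬ FromModule q A B := by
  refine ⟨⟨?_, ?_⟩, ?_⟩
  · rintro ⟨r, hr⟩
    nlinarith [mul_self_nonneg r]
  · rintro ⟨r, hr⟩
    nlinarith [mul_self_nonneg r]
  · intro K _ _ hsq
    have bA := beta_A (K := K)
    have bB := beta_B (K := K)
    refine ⟨Matrix.toLin' (MA K), Matrix.toLin' (MB K), ⟨?_, ?_⟩, bA, bB, by norm_num, ?_⟩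
    · obtain ⟨b, hb, _⟩ := bB
      exact ⟨b, hb⟩
    · obtain ⟨b, hb, _⟩ := bA
      exact ⟨b, hb⟩
    · intro q hq0 hβ
      have hcase : q ^ 2 = 4 ∨ q ^ 2 = 1 / 4 := by
        have h1 : (q ^ 2 - 4) * (q ^ 2 - 1 / 4) = 0 := by
          have h2 : q ^ 2 * (q ^ 2)⁻¹ = 1 := mul_inv_cancel₀ (pow_ne_zero _ hq0)
          linear_combination -h2 - q ^ 2 * hβ
        rcases mul_eq_zero.1 h1 with h2 | h2
        · exact Or.inl (sub_eq_zero.1 h2)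
        · exact Or.inr (sub_eq_zero.1 h2)
      have hn4 : ∀ n : ℕ, n ≠ 0 → (4 : K) ^ n ≠ 1 := by
        intro n hn h
        have h1 : (4 : ℕ) ^ n = 1 := by exact_mod_cast h
        have h2 : 1 < 4 ^ n := Nat.one_lt_pow hn (by norm_num)
        omega
      have hroot : ∀ n : ℕ, n ≠ 0 → (q ^ 2) ^ n ≠ 1 := by
        intro n hn h
        rcases hcase with h1 | h1
        · rw [h1] at h
          exact hn4 n hn h
        · rw [h1, one_div, inv_pow, inv_eq_one] at h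
          exact hn4 n hn h
      refine ⟨?_, ?_⟩
      · intro n hn h
        apply hroot n hn
        rw [← pow_mul, mul_comm, pow_mul, h, one_pow]
      · rintro ⟨φ, hirr, hsp⟩
        have hq1 : q ^ 2 ≠ 1 := by
          have := hroot 1 one_ne_zero
          rwa [pow_one] at this
        obtain ⟨⟨h01, h10⟩, hXY, hYZ, hZX⟩ := rels q hq0 hq1 φ
        obtain ⟨b, μ, hμ0, hm, hY, hX, hZ⟩ := structure4 (by simp) q hq0 hroot
          (φ (gen K q 0)) (φ (gen K q 2)) (φ (gen K q 3)) hXY hYZ hZX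
          (fun W w0 w2 w3 => hirr W (fun u => stable q φ h01 h10 W w0 w2 w3 u))
        rcases hcase with h1 | h1
        · rw [h1] at hm hY hX hZ
          exact no4' hsq _ _ _ b μ hμ0 hm hY hX hZ hsp
        · rw [h1] at hm hY hX hZ
          exact noq' hsq _ _ _ b μ hμ0 hm hY hX hZ hsp

end Pool.Agent.Results.MP_32472a_al.NonSplitQ
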